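import Pool.Agent.helper62.QU.Spec

/-!
# Row `qu:APX` of MP_07c750: approximation by the kernels of the family
-/

open scoped MatrixGroups ContDiff Topology UpperHalfPlane
open UpperHalfPlane MeasureTheory Filter Set

namespace Pool.Agent.QU

/-- the difference as an integral, bounded by a local bound -/
theorem APX_aux (h4 : CVB_stmt) {fam : ℝ → ℝ → ℝ} (hf : Fam fam) {E : Type}
    [NormedAddCommGroup E] [NormedSpace ℝ E] [CompleteSpace E] {f : ℍ → E} (hfc : Continuous f)
    {η ε : ℝ} (hη : 0 < η) (z : ℍ) (hloc : ∀ w, tt z w < η → ‖f w - f z‖ ≤ ε) :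
    ‖conv (fam η) f z - f z‖ ≤ ε := by
  obtain ⟨-, hlin, -⟩ := h4 E
  have hm := hf.mass η hη z
  have hconst : conv (fam η) (fun _ => f z) z = f z := by
    show ∫ w : ℍ, fam η (tt z w) • f z = f z
    rw [integral_smul_const, hm, one_smul]
  have h1 := hlin (fam η) f (fun _ => f z) 1 (-1) z (hf.rk η hη) hfc continuous_const
  rw [hconst] at h1
  have h2 : conv (fam η) f z - f z = ∫ w : ℍ, fam η (tt z w) • (f w - f z) := by
    have h3 : (1 : ℝ) • conv (fam η) f z + (-1 : ℝ) • f z = conv (fam η) f z - f z := by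
      rw [one_smul, _root_.neg_smul, one_smul, sub_eq_add_neg]
    rw [← h3, ← h1]
    show ∫ w : ℍ, fam η (tt z w) • ((1 : ℝ) • f w + (-1 : ℝ) • f z) = _
    refine integral_congr_ae (Eventually.of_forall fun w => ?_)
    simp only [one_smul, _root_.neg_smul, sub_eq_add_neg]
  rw [h2]
  have hint : Integrable (fun w : ℍ => fam η (tt z w)) := by
    by_contra hcon
    rw [integral_undef hcon] at hm
    exact zero_ne_one hm
  have h5 : ‖∫ w : ℍ, fam η (tt z w) • (f w - f z)‖ ≤ ∫ w : ℍ, fam η (tt z w) * ε := by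
    refine norm_integral_le_of_norm_le (hint.mul_const ε) (Eventually.of_forall fun w => ?_)
    rw [norm_smul]
    by_cases hw : tt z w < η
    · rw [Real.norm_eq_abs, abs_of_nonneg (hf.nonneg η hη _)]
      exact mul_le_mul_of_nonneg_left (hloc w hw) (hf.nonneg η hη _)
    · rw [hf.supp η hη _ (not_lt.mp hw)]
      simp
  refine h5.trans ?_
  rw [integral_mul_const, hm, one_mul]

theorem APX (h1 : TTT_stmt) (h2 : INV_stmt) (h3 : LAK_stmt) (h4 : CVB_stmt) : APX_stmt := by
  intro fam hf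
  obtain ⟨-, -, -, -, -, -, hloc, -⟩ := h1
  refine ⟨?_, ?_⟩
  · intro E _ _ _ f hfc K hK ε hε
    have hU := hK.uniformContinuousAt_of_continuousAt f (fun a _ => hfc.continuousAt)
      (Metric.dist_mem_uniformity hε)
    obtain ⟨δ, hδ, hδ'⟩ := Metric.mem_uniformity_dist.mp hU
    obtain ⟨s, hs, hs'⟩ := hloc δ hδ
    refine ⟨s, hs, fun η hη hηs z hz => APX_aux h4 hf hfc hη z fun w hw => ?_⟩
    have h5 : dist z w < δ := hs' z w (hw.trans_le hηs)
    have h6 := hδ' h5 hz
    have h7 : dist (f z) (f w) < ε := h6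
    rw [← dist_eq_norm, dist_comm]
    exact h7.le
  · intro f hfu ε hε
    obtain ⟨δ, hδ, hδ'⟩ := Metric.uniformContinuous_iff.mp hfu ε hε
    obtain ⟨s, hs, hs'⟩ := hloc δ hδ
    refine ⟨s, hs, fun η hη hηs z => ?_⟩
    have h5 := APX_aux (ε := ε) h4 hf hfu.continuous hη z fun w hw => by
      have h6 : dist z w < δ := hs' z w (hw.trans_le hηs)
      rw [← dist_eq_norm, dist_comm]
      exact (hδ' h6).le
    rwa [Real.norm_eq_abs] at h5

end Pool.Agent.QU
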