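import Pool.Agent.helper62.QU.Spec

/-!
# Row `qu:DOM` of MP_07c750: a nice fundamental domain
-/

open scoped MatrixGroups ContDiff Topology UpperHalfPlane
open UpperHalfPlane MeasureTheory Filter Set

namespace Pool.Agent.QU

/-- `Γ` acts by isometries -/
theorem DOM_dist {Γ : Subgroup SL(2, ℝ)} (γ : Γ) (z w : ℍ) : dist (γ • z) (γ • w) = dist z w := by
  have h : dist ((γ : SL(2, ℝ)) • z) ((γ : SL(2, ℝ)) • w) = dist z w := dist_smul _ _ _
  exact h

/-- every point has a ball all whose translates are disjoint from it -/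
theorem DOM_ball {Γ : Subgroup SL(2, ℝ)} (hΓ : SurfaceGroup Γ) (z : ℍ) :
    ∃ r : ℝ, 0 < r ∧ ∀ (γ : Γ) (w : ℍ), w ∈ Metric.ball z r → γ • w ∈ Metric.ball z r → γ = 1 := by
  classical
  have hfin := hΓ.discrete (Metric.closedBall z 1) (isCompact_closedBall z 1)
  obtain ⟨r, hr, hr1, hrS⟩ : ∃ r : ℝ, 0 < r ∧ r ≤ 1 ∧
      ∀ γ ∈ {γ : Γ | ∃ w ∈ Metric.closedBall z 1, γ • w ∈ Metric.closedBall z 1}, γ ≠ 1 →
        2 * r ≤ dist z (γ • z) := by
    have key : ∀ S : Set Γ, S.Finite → ∃ r : ℝ, 0 < r ∧ r ≤ 1 ∧ ∀ γ ∈ S, γ ≠ 1 →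
        2 * r ≤ dist z (γ • z) := by
      intro S hS
      induction S, hS using Set.Finite.induction_on with
      | empty => exact ⟨1, one_pos, le_rfl, fun γ hγ => (Set.notMem_empty _ hγ).elim⟩
      | @insert a S _ _ ih =>
        obtain ⟨r, hr, hr1, hrS⟩ := ih
        by_cases ha : a = 1
        · refine ⟨r, hr, hr1, fun γ hγ hγ1 => ?_⟩
          rcases hγ with h | h
          · exact (hγ1 (h.trans ha)).elim
          · exact hrS γ h hγ1
        · have hpos : 0 < dist z (a • z) :=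
            dist_pos.mpr fun h => ha (hΓ.free a z h.symm)
          refine ⟨min r (dist z (a • z) / 2), lt_min hr (half_pos hpos),
            (min_le_left _ _).trans hr1, fun γ hγ hγ1 => ?_⟩
          rcases hγ with h | h
          · rw [h]
            have := min_le_right r (dist z (a • z) / 2)
            linarith
          · have := min_le_left r (dist z (a • z) / 2)
            have := hrS γ h hγ1
            linarith
    exact key _ hfin
  refine ⟨r, hr, fun γ w hw hγw => ?_⟩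
  by_contra hγ1
  have hmem : γ ∈ {γ : Γ | ∃ w ∈ Metric.closedBall z 1, γ • w ∈ Metric.closedBall z 1} :=
    ⟨w, Metric.closedBall_subset_closedBall hr1 (Metric.ball_subset_closedBall hw),
      Metric.closedBall_subset_closedBall hr1 (Metric.ball_subset_closedBall hγw)⟩
  have h1 := hrS γ hmem hγ1
  have h2 : dist z (γ • z) ≤ dist z (γ • w) + dist (γ • w) (γ • z) := dist_triangle _ _ _
  rw [DOM_dist] at h2
  have h3 : dist w z < r := hw
  have h4 : dist (γ • w) z < r := hγw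
  rw [dist_comm z (γ • w)] at h2
  linarith

theorem DOM : DOM_stmt := by
  classical
  intro Γ hΓ
  choose r hr hrγ using DOM_ball hΓ
  obtain ⟨K, hK, hKΓ⟩ := hΓ.cocompact
  obtain ⟨t, ht⟩ := hK.elim_finite_subcover (fun z : ℍ => Metric.ball z (r z))
    (fun z => Metric.isOpen_ball) (fun z _ => Set.mem_iUnion.mpr ⟨z, Metric.mem_ball_self (hr z)⟩)
  -- an enumeration of the centres
  obtain ⟨m, c, hc⟩ : ∃ (m : ℕ) (c : Fin m → ℍ), ∀ z ∈ t, ∃ i, c i = z :=
    ⟨t.card, fun i => (t.equivFin.symm i : ℍ), fun z hz =>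
      ⟨t.equivFin ⟨z, hz⟩, by simp⟩⟩
  set B : Fin m → Set ℍ := fun i => Metric.ball (c i) (r (c i)) with hB
  set U : Fin m → Set ℍ := fun i => {z | ∃ γ : Γ, γ • z ∈ B i} with hU
  have hUinv : ∀ (i : Fin m) (γ : Γ) (z : ℍ), γ • z ∈ U i → z ∈ U i := by
    rintro i γ z ⟨δ, hδ⟩
    exact ⟨δ * γ, by rwa [mul_smul]⟩
  have hBU : ∀ (i : Fin m) (z : ℍ), z ∈ B i → z ∈ U i := fun i z hz => ⟨1, by rwa [one_smul]⟩
  have hcont : ∀ γ : Γ, Continuous fun z : ℍ => γ • z := fun γ =>
    (Isometry.of_dist_eq fun z w => DOM_dist γ z w).continuous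
  have hUo : ∀ i, IsOpen (U i) := by
    intro i
    have : U i = ⋃ γ : Γ, (fun z : ℍ => γ • z) ⁻¹' (B i) := by
      ext z
      simp [hU]
    rw [this]
    exact isOpen_iUnion fun γ => Metric.isOpen_ball.preimage (hcont γ)
  have hcov : ∀ z : ℍ, ∃ i, z ∈ U i := by
    intro z
    obtain ⟨γ, hγ⟩ := hKΓ z
    obtain ⟨x, hx⟩ := Set.mem_iUnion.mp (ht hγ)
    obtain ⟨hxt, hx⟩ := Set.mem_iUnion.mp hx
    obtain ⟨i, hi⟩ := hc x hxt
    refine ⟨i, γ, ?_⟩
    rw [hB]
    show γ • z ∈ Metric.ball (c i) (r (c i))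
    rw [hi]
    exact hx
  refine ⟨⋃ i, (B i \ ⋃ j, ⋃ (_ : j < i), U j), ?_, ?_, ?_⟩
  · refine MeasurableSet.iUnion fun i => Metric.isOpen_ball.measurableSet.diff ?_
    exact MeasurableSet.iUnion fun j => MeasurableSet.iUnion fun _ => (hUo j).measurableSet
  · refine ⟨⋃ i, Metric.closedBall (c i) (r (c i)), isCompact_iUnion fun i =>
      isCompact_closedBall _ _, ?_⟩
    exact Set.iUnion_mono fun i => Set.diff_subset.trans Metric.ball_subset_closedBall
  · intro z
    have hmin : ∃ i, z ∈ U i ∧ ∀ j, j < i → z ∉ U j := by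
      have hne : (Finset.univ.filter fun i => z ∈ U i).Nonempty := by
        obtain ⟨i, hi⟩ := hcov z
        exact ⟨i, by simp [hi]⟩
      refine ⟨(Finset.univ.filter fun i => z ∈ U i).min' hne, ?_, ?_⟩
      · have := Finset.min'_mem _ hne
        exact (Finset.mem_filter.mp this).2
      · intro j hj hjU
        exact absurd (Finset.min'_le _ j (Finset.mem_filter.mpr ⟨Finset.mem_univ _, hjU⟩))
          (not_le.mpr hj)
    obtain ⟨i, ⟨γ, hγ⟩, hi⟩ := hmin
    refine ⟨γ, ?_, ?_⟩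
    · refine Set.mem_iUnion.mpr ⟨i, hγ, ?_⟩
      intro hcon
      obtain ⟨j, hj⟩ := Set.mem_iUnion.mp hcon
      obtain ⟨hji, hj⟩ := Set.mem_iUnion.mp hj
      exact hi j hji (hUinv j γ z hj)
    · intro δ hδ
      obtain ⟨k, hk, hk'⟩ := Set.mem_iUnion.mp hδ
      have hik : k = i := by
        rcases lt_trichotomy k i with h | h | h
        · exact absurd (hUinv k δ z (hBU k _ hk)) (hi k h)
        · exact h
        · exfalso
          apply hk'
          refine Set.mem_iUnion.mpr ⟨i, Set.mem_iUnion.mpr ⟨h, ?_⟩⟩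
          refine ⟨γ * δ⁻¹, ?_⟩
          rw [mul_smul, inv_smul_smul]
          exact hγ
      rw [hik] at hk
      have h1 : (δ * γ⁻¹) • (γ • z) ∈ B i := by
        rw [mul_smul, inv_smul_smul]
        exact hk
      have h2 := hrγ (c i) (δ * γ⁻¹) (γ • z) hγ h1
      exact mul_inv_eq_one.mp h2

end Pool.Agent.QU
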