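import Pool.Agent.helper62.QU.Spec

/-!
# Row `qu:TR2` of MP_07c750: negative semidefinite kernels give negative semidefinite matrices
over the group algebra
-/

open scoped MatrixGroups ContDiff Topology UpperHalfPlane
open UpperHalfPlane MeasureTheory Filter Set

namespace Pool.Agent.QU

/-- `NSD` for any finite index type -/
theorem TR2_nsd {a : ℍ → ℍ → ℝ} (ha : NSD a) {ι : Type} [Fintype ι] (q : ι → ℍ) (x : ι → ℝ) :
    ∑ l, ∑ l', x l * x l' * a (q l) (q l') ≤ 0 := by
  have h := ha (Fintype.card ι) (fun m => q ((Fintype.equivFin ι).symm m))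
    (fun m => x ((Fintype.equivFin ι).symm m))
  have h1 : ∀ g : ι → ℝ, ∑ m : Fin (Fintype.card ι), g ((Fintype.equivFin ι).symm m) = ∑ l, g l :=
    fun g => Equiv.sum_comp (Fintype.equivFin ι).symm g
  have h2 : ∑ l, ∑ l', x l * x l' * a (q l) (q l') =
      ∑ m : Fin (Fintype.card ι), ∑ m' : Fin (Fintype.card ι),
        x ((Fintype.equivFin ι).symm m) * x ((Fintype.equivFin ι).symm m') *
          a (q ((Fintype.equivFin ι).symm m)) (q ((Fintype.equivFin ι).symm m')) := by
    rw [← h1]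
    refine Finset.sum_congr rfl fun m _ => ?_
    rw [← h1]
  rw [h2]
  exact h

/-- the coefficients of `mC` -/
theorem TR2_coeff {Γ : Subgroup SL(2, ℝ)} {a : ℍ → ℍ → ℝ} {S : Finset Γ} {k : ℕ}
    {p : Fin k → ℍ} (hS : ∀ (γ : Γ) (i j : Fin k), a (p i) (γ • p j) ≠ 0 → γ ∈ S)
    (i j : Fin k) (γ : Γ) : (mC a S p i j).coeff γ = ((a (p i) (γ • p j) : ℝ) : ℂ) := by
  classical
  rw [mC, MonoidAlgebra.coeff_sum, Finsupp.finset_sum_apply]
  simp only [MonoidAlgebra.coeff_single, Finsupp.single_apply]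
  rw [Finset.sum_ite_eq' S γ]
  by_cases h : γ ∈ S
  · rw [if_pos h]
  · rw [if_neg h]
    by_contra hne
    apply h
    apply hS γ i j
    intro h0
    rw [h0] at hne
    exact hne (by simp)

theorem TR2 : TR2_stmt := by
  classical
  intro Γ a S k p ha hN hSi hS
  have hcoe := fun i j γ => TR2_coeff (Γ := Γ) (S := S) hS i j γ
  have hinv : ∀ (γ δ : Γ) (i j : Fin k),
      a (p i) ((γ * δ⁻¹) • p j) = a (γ⁻¹ • p i) (δ⁻¹ • p j) := by
    intro γ δ i j
    rw [← ha.inv γ⁻¹ (p i) ((γ * δ⁻¹) • p j), mul_smul, inv_smul_smul]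
  refine ⟨?_, ?_⟩
  · intro i j γ
    rw [hcoe, hcoe, ha.symm (p j), ← ha.inv γ (γ⁻¹ • p i) (p j), smul_inv_smul]
    simp
  · intro e
    set T : Finset Γ := Finset.univ.biUnion fun i : Fin k => (e i).coeff.support with hT
    have hTi : ∀ i, (e i).coeff.support ⊆ T := fun i =>
      Finset.subset_biUnion_of_mem (fun i : Fin k => (e i).coeff.support) (Finset.mem_univ i)
    have hip : ∀ i j, ip (e i) (mC a S p i j * e j) =
        ∑ γ ∈ T, ∑ δ ∈ T, star ((e i).coeff γ) * (e j).coeff δ *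
          ((a (γ⁻¹ • p i) (δ⁻¹ • p j) : ℝ) : ℂ) := by
      intro i j
      rw [ip, Finset.sum_subset (hTi i)]
      · refine Finset.sum_congr rfl fun γ _ => ?_
        rw [MonoidAlgebra.coeff_mul_apply_right, Finsupp.sum, Finset.sum_subset (hTi j),
          Finset.mul_sum]
        · refine Finset.sum_congr rfl fun δ _ => ?_
          rw [hcoe, hinv]
          ring
        · intro δ _ hδ
          rw [Finsupp.notMem_support_iff.mp hδ, mul_zero]
      · intro γ _ hγ
        rw [Finsupp.notMem_support_iff.mp hγ, star_zero, zero_mul]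
    have hre : ∀ i j, (ip (e i) (mC a S p i j * e j)).re =
        ∑ γ ∈ T, ∑ δ ∈ T, (((e i).coeff γ).re * ((e j).coeff δ).re *
            a (γ⁻¹ • p i) (δ⁻¹ • p j) + ((e i).coeff γ).im * ((e j).coeff δ).im *
            a (γ⁻¹ • p i) (δ⁻¹ • p j)) := by
      intro i j
      rw [hip, Complex.re_sum]
      refine Finset.sum_congr rfl fun γ _ => ?_
      rw [Complex.re_sum]
      refine Finset.sum_congr rfl fun δ _ => ?_
      rw [Complex.re_mul_ofReal, Complex.star_def, Complex.mul_re, Complex.conj_re,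
        Complex.conj_im]
      ring
    -- the sums over the index type
    have hsum : ∀ x : Fin k → Γ → ℝ, ∑ i, ∑ j, ∑ γ ∈ T, ∑ δ ∈ T, x i γ * x j δ *
        a (γ⁻¹ • p i) (δ⁻¹ • p j) ≤ 0 := by
      intro x
      have h := TR2_nsd hN (ι := Fin k × T) (fun l => (l.2 : Γ)⁻¹ • p l.1)
        (fun l => x l.1 l.2)
      refine le_of_eq_of_le ?_ h
      rw [Fintype.sum_prod_type]
      refine Finset.sum_congr rfl fun i _ => ?_
      rw [Finset.sum_comm]
      rw [← Finset.sum_coe_sort T]
      refine Finset.sum_congr rfl fun γ _ => ?_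
      rw [Fintype.sum_prod_type]
      refine Finset.sum_congr rfl fun j _ => ?_
      rw [← Finset.sum_coe_sort T]
    rw [Complex.re_sum]
    simp only [Complex.re_sum, hre, Finset.sum_add_distrib]
    have h1 := hsum fun i γ => ((e i).coeff γ).re
    have h2 := hsum fun i γ => ((e i).coeff γ).im
    linarith

end Pool.Agent.QU
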